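import Pool.Agent.W120.WM.Defs

/-!
# UNS: unsmoothing
-/

set_option autoImplicit false

open MeasureTheory Filter Topology Set

namespace Pool.Agent.W143.WM

open Pool.Agent.W120.WM

/-- partial sums of the Moebius function -/
noncomputable def Sn (k : ℕ) : ℝ :=
  ∑ n ∈ Finset.Icc 1 k, ((ArithmeticFunction.moebius n : ℤ) : ℝ)

theorem Sn_succ (k : ℕ) : Sn (k + 1) = Sn k + ((ArithmeticFunction.moebius (k + 1) : ℤ) : ℝ) := by
  unfold Sn
  rw [Finset.sum_Icc_succ_top (by omega)]

theorem mu_le (n : ℕ) : |((ArithmeticFunction.moebius n : ℤ) : ℝ)| ≤ 1 := by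
  have h := ArithmeticFunction.abs_moebius_le_one (n := n)
  exact_mod_cast h

theorem Sn_diff (m k : ℕ) (h : m ≤ k) : |Sn k - Sn m| ≤ (k : ℝ) - m := by
  induction k, h using Nat.le_induction with
  | base => simp
  | succ k hk ih =>
    rw [Sn_succ]
    have h1 := mu_le (k + 1)
    have h2 : Sn k + ((ArithmeticFunction.moebius (k + 1) : ℤ) : ℝ) - Sn m =
        (Sn k - Sn m) + ((ArithmeticFunction.moebius (k + 1) : ℤ) : ℝ) := by ring
    rw [h2]
    refine (abs_add_le _ _).trans ?_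
    push_cast
    linarith

theorem Mx_diff_le (a b : ℝ) (hb : 0 ≤ b) (hab : b ≤ a) : |Mx a - Mx b| ≤ (a - b) + 1 := by
  have h1 := Sn_diff ⌊b⌋₊ ⌊a⌋₊ (Nat.floor_le_floor hab)
  have h2 : (⌊a⌋₊ : ℝ) ≤ a := Nat.floor_le (hb.trans hab)
  have h3 : b < (⌊b⌋₊ : ℝ) + 1 := Nat.lt_floor_add_one b
  have h4 : |Mx a - Mx b| ≤ (⌊a⌋₊ : ℝ) - ⌊b⌋₊ := h1
  linarith

theorem Mx_diff (a b : ℝ) (ha : 0 ≤ a) (hb : 0 ≤ b) : |Mx a - Mx b| ≤ |a - b| + 1 := by
  rcases le_total b a with h | h
  · rw [abs_of_nonneg (sub_nonneg.2 h)]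
    exact Mx_diff_le a b hb h
  · rw [abs_sub_comm, abs_sub_comm a b, abs_of_nonneg (sub_nonneg.2 h)]
    exact Mx_diff_le b a ha h

theorem exp_bd (w : ℝ) : |1 - Real.exp (-w)| ≤ |w| * Real.exp |w| := by
  rcases le_total 0 w with h | h
  · have h1 : Real.exp (-w) ≤ 1 := Real.exp_le_one_iff.2 (by linarith)
    rw [abs_of_nonneg (by linarith), abs_of_nonneg h]
    have h2 := Real.add_one_le_exp (-w)
    have h3 : (1 : ℝ) ≤ Real.exp w := Real.one_le_exp h
    nlinarith
  · have h1 : 1 ≤ Real.exp (-w) := Real.one_le_exp (by linarith)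
    rw [abs_of_nonpos (by linarith), abs_of_nonpos h]
    have h2 := Real.add_one_le_exp w
    have h3 : Real.exp (-w) * Real.exp w = 1 := by
      rw [← Real.exp_add]
      simp
    have h4 : 0 < Real.exp (-w) := Real.exp_pos _
    nlinarith

theorem key (h w : ℝ) (hh : 0 < h) (hh1 : h ≤ 1) :
    |1 - Real.exp (-w)| * Real.exp (-(w ^ 2 / (2 * h ^ 2))) ≤
      h * Real.exp 4 * Real.exp (-(1 / (4 * h ^ 2)) * w ^ 2) := by
  have h1 := exp_bd w
  set y := |w| / h with hy
  have hyw : |w| = h * y := by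
    rw [hy]
    field_simp
  have hy0 : 0 ≤ y := by positivity
  have hwy : |w| ≤ y := by
    rw [hyw]
    nlinarith
  have hye : y ≤ Real.exp y := by
    have := Real.add_one_le_exp y
    linarith
  have h2 : |w| * Real.exp |w| ≤ h * (Real.exp y * Real.exp y) := by
    have e1 : Real.exp |w| ≤ Real.exp y := Real.exp_le_exp.2 hwy
    calc |w| * Real.exp |w| = h * (y * Real.exp |w|) := by rw [← mul_assoc, ← hyw]
      _ ≤ h * (Real.exp y * Real.exp y) := by
        apply mul_le_mul_of_nonneg_left _ hh.le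
        exact mul_le_mul hye e1 (Real.exp_pos _).le (Real.exp_pos _).le
  have hw2 : w ^ 2 = h ^ 2 * y ^ 2 := by
    rw [← sq_abs w, hyw]
    ring
  have e2 : -(w ^ 2 / (2 * h ^ 2)) = -(y ^ 2 / 2) := by
    rw [hw2]
    field_simp
  have e3 : -(1 / (4 * h ^ 2)) * w ^ 2 = -(y ^ 2 / 4) := by
    rw [hw2]
    field_simp
  rw [e2, e3]
  calc |1 - Real.exp (-w)| * Real.exp (-(y ^ 2 / 2))
      ≤ (h * (Real.exp y * Real.exp y)) * Real.exp (-(y ^ 2 / 2)) :=
        mul_le_mul_of_nonneg_right (h1.trans h2) (Real.exp_pos _).le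
    _ = h * Real.exp (y + y - y ^ 2 / 2) := by
        rw [mul_assoc, ← Real.exp_add, ← Real.exp_add]
        congr 2
    _ ≤ h * Real.exp (4 + -(y ^ 2 / 4)) := by
        apply mul_le_mul_of_nonneg_left _ hh.le
        apply Real.exp_le_exp.2
        nlinarith [sq_nonneg (y / 2 - 2)]
    _ = h * Real.exp 4 * Real.exp (-(y ^ 2 / 4)) := by
        rw [Real.exp_add, mul_assoc]

theorem int_gk (h : ℝ) (hh : 0 < h) : Integrable (gk h) ∧ ∫ w, gk h w = 1 := by
  have hb : 0 < 1 / (2 * h ^ 2) := by positivity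
  have e : gk h = fun w => (h * Real.sqrt (2 * Real.pi))⁻¹ *
      Real.exp (-(1 / (2 * h ^ 2)) * w ^ 2) := by
    funext w
    unfold gk
    congr 2
    ring
  have hi := (integrable_exp_neg_mul_sq hb).const_mul (h * Real.sqrt (2 * Real.pi))⁻¹
  refine ⟨by rw [e]; exact hi, ?_⟩
  rw [e, integral_const_mul, integral_gaussian]
  have h2 : Real.pi / (1 / (2 * h ^ 2)) = h ^ 2 * (2 * Real.pi) := by
    field_simp
  rw [h2, Real.sqrt_mul (sq_nonneg h), Real.sqrt_sq hh.le]
  have : 0 < h * Real.sqrt (2 * Real.pi) := by positivity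
  exact inv_mul_cancel₀ this.ne'

theorem int_G (h : ℝ) (hh : 0 < h) :
    Integrable (fun w : ℝ => (h * Real.sqrt (2 * Real.pi))⁻¹ *
      Real.exp (-(1 / (4 * h ^ 2)) * w ^ 2)) ∧
    ∫ w : ℝ, (h * Real.sqrt (2 * Real.pi))⁻¹ * Real.exp (-(1 / (4 * h ^ 2)) * w ^ 2) ≤ 2 := by
  have hb : 0 < 1 / (4 * h ^ 2) := by positivity
  have hi := (integrable_exp_neg_mul_sq hb).const_mul (h * Real.sqrt (2 * Real.pi))⁻¹
  refine ⟨hi, ?_⟩
  rw [integral_const_mul, integral_gaussian]
  have h2 : Real.pi / (1 / (4 * h ^ 2)) = h ^ 2 * (4 * Real.pi) := by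
    field_simp
  rw [h2, Real.sqrt_mul (sq_nonneg h), Real.sqrt_sq hh.le]
  have h0 : 0 < h * Real.sqrt (2 * Real.pi) := by positivity
  rw [inv_mul_le_iff₀ h0]
  have h3 : Real.sqrt (4 * Real.pi) ≤ Real.sqrt (2 * Real.pi) * 2 := by
    have : Real.sqrt (4 * Real.pi) ≤ Real.sqrt ((2 * Real.pi) * 2 ^ 2) := by
      apply Real.sqrt_le_sqrt
      nlinarith [Real.pi_pos]
    have h5 : Real.sqrt ((2 * Real.pi) * 2 ^ 2) = Real.sqrt (2 * Real.pi) * 2 := by
      rw [Real.sqrt_mul (by positivity : (0 : ℝ) ≤ 2 * Real.pi), Real.sqrt_sq (by norm_num)]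
    rw [h5] at this
    exact this
  nlinarith

theorem meas (v : ℝ) : Measurable (fun w : ℝ => Mx (Real.exp (v - w))) := by
  have h1 : (fun w : ℝ => Mx (Real.exp (v - w))) =
      Sn ∘ (fun w : ℝ => ⌊Real.exp (v - w)⌋₊) := rfl
  rw [h1]
  apply Measurable.comp (measurable_of_countable Sn)
  exact Nat.measurable_floor.comp (Real.measurable_exp.comp (measurable_const.sub measurable_id))

theorem main : T_UNS := by
  refine ⟨1 + 2 * Real.exp 4, by positivity, ?_⟩
  intro v h hv hh hhv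
  have hh1 : h ≤ 1 := hhv.trans (Real.exp_le_one_iff.2 (by linarith))
  have hvh : Real.exp v * h ≤ 1 := by
    have h3 : Real.exp v * Real.exp (-v) = 1 := by
      rw [← Real.exp_add]
      simp
    have h4 := mul_le_mul_of_nonneg_left hhv (Real.exp_pos v).le
    linarith
  obtain ⟨gi, g1⟩ := int_gk h hh
  obtain ⟨Gi, G1⟩ := int_G h hh
  set G : ℝ → ℝ := fun w : ℝ => (h * Real.sqrt (2 * Real.pi))⁻¹ *
      Real.exp (-(1 / (4 * h ^ 2)) * w ^ 2) with hG
  have hc0 : 0 < (h * Real.sqrt (2 * Real.pi))⁻¹ := by positivity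
  have gpos : ∀ w, 0 ≤ gk h w := fun w => by
    unfold gk
    positivity
  have hbd : ∀ w, ‖(Mx (Real.exp v) - Mx (Real.exp (v - w))) * gk h w‖ ≤
      gk h w + Real.exp 4 * G w := by
    intro w
    rw [norm_mul, Real.norm_eq_abs, Real.norm_eq_abs, abs_of_nonneg (gpos w)]
    have h1 := Mx_diff (Real.exp v) (Real.exp (v - w)) (Real.exp_pos _).le (Real.exp_pos _).le
    have h2 : |Real.exp v - Real.exp (v - w)| = Real.exp v * |1 - Real.exp (-w)| := by
      have : Real.exp v - Real.exp (v - w) = Real.exp v * (1 - Real.exp (-w)) := by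
        rw [sub_eq_add_neg v w, Real.exp_add]
        ring
      rw [this, abs_mul, abs_of_pos (Real.exp_pos v)]
    rw [h2] at h1
    have h3 : |Mx (Real.exp v) - Mx (Real.exp (v - w))| * gk h w ≤
        (Real.exp v * |1 - Real.exp (-w)| + 1) * gk h w :=
      mul_le_mul_of_nonneg_right h1 (gpos w)
    have h4 : Real.exp v * |1 - Real.exp (-w)| * gk h w ≤ Real.exp 4 * G w := by
      have hk := key h w hh hh1
      have e1 : Real.exp v * |1 - Real.exp (-w)| * gk h w =
          (Real.exp v * (h * Real.sqrt (2 * Real.pi))⁻¹) *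
            (|1 - Real.exp (-w)| * Real.exp (-(w ^ 2 / (2 * h ^ 2)))) := by
        unfold gk
        ring
      rw [e1]
      have h5 : (Real.exp v * (h * Real.sqrt (2 * Real.pi))⁻¹) *
            (|1 - Real.exp (-w)| * Real.exp (-(w ^ 2 / (2 * h ^ 2)))) ≤
          (Real.exp v * (h * Real.sqrt (2 * Real.pi))⁻¹) *
            (h * Real.exp 4 * Real.exp (-(1 / (4 * h ^ 2)) * w ^ 2)) :=
        mul_le_mul_of_nonneg_left hk (by positivity)
      refine h5.trans ?_
      have e2 : (Real.exp v * (h * Real.sqrt (2 * Real.pi))⁻¹) *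
            (h * Real.exp 4 * Real.exp (-(1 / (4 * h ^ 2)) * w ^ 2)) =
          (Real.exp v * h) * (Real.exp 4 * G w) := by
        rw [hG]
        ring
      rw [e2]
      have hGw : 0 ≤ Real.exp 4 * G w := by
        rw [hG]
        positivity
      exact mul_le_of_le_one_left hGw hvh
    nlinarith
  have hGint : Integrable (fun w => gk h w + Real.exp 4 * G w) := gi.add (Gi.const_mul _)
  have hmeas : AEStronglyMeasurable
      (fun w => (Mx (Real.exp v) - Mx (Real.exp (v - w))) * gk h w) volume := by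
    apply AEStronglyMeasurable.mul
    · exact (measurable_const.sub (meas v)).aestronglyMeasurable
    · exact gi.aestronglyMeasurable
  have hint : Integrable (fun w => (Mx (Real.exp v) - Mx (Real.exp (v - w))) * gk h w) :=
    hGint.mono' hmeas (Filter.Eventually.of_forall hbd)
  have hint2 : Integrable (fun w => Mx (Real.exp v) * gk h w) := gi.const_mul _
  have hint3 : Integrable (fun w => Mx (Real.exp (v - w)) * gk h w) := by
    have := hint2.sub hint
    refine this.congr (Filter.Eventually.of_forall fun w => ?_)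
    simp only [Pi.sub_apply]
    ring
  have heq : Mx (Real.exp v) - Sm h v =
      ∫ w, (Mx (Real.exp v) - Mx (Real.exp (v - w))) * gk h w := by
    have e1 : ∫ w, (Mx (Real.exp v) - Mx (Real.exp (v - w))) * gk h w =
        ∫ w, (Mx (Real.exp v) * gk h w - Mx (Real.exp (v - w)) * gk h w) := by
      congr 1
      funext w
      ring
    rw [e1, integral_sub hint2 hint3, integral_const_mul, g1, mul_one]
    rfl
  rw [heq, ← Real.norm_eq_abs]
  refine (norm_integral_le_integral_norm _).trans ?_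
  refine (integral_mono hint.norm hGint hbd).trans ?_
  rw [integral_add gi (Gi.const_mul _), integral_const_mul, g1]
  have := mul_le_mul_of_nonneg_left G1 (Real.exp_pos 4).le
  linarith

end Pool.Agent.W143.WM
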